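import Pool.Agent.Helper30.AF.BaseExp
import Pool.Agent.Helper19.AF.Shift

/-! # Project AU (`MP_9ee088_an`), part of U2: the expectation of a product over `M` windows, one shift of five steps -/

set_option autoImplicit false
open MeasureTheory Real Set Filter Topology
open scoped ENNReal

namespace Pool.Agent.Helper30.AU

open Pool.Agent.Helper46.QP (TT Td)
open Pool.Agent.Helper82.AN (Ow lawL eta Hw sq SepR)
open Pool.Agent.Helper95.AF (up5 un un5 frc)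
open Pool.Agent.Helper30.AF (seq_meas)

instance un5_prob30 : IsProbabilityMeasure un5 := by
  unfold un5
  infer_instance

/-- expectation of a product over `M` separated windows -/
theorem prod_windows {d : ℕ} {γ : ℝ} (hγ : 0 < γ) {k : ℕ} {e : Fin k → Td d → ℝ} {U : Fin (k + 1) → ℝ} (hU : U 0 ≠ 0)
    {α : Td d} {r₀ s : ℝ} {n M N P : ℕ} {β : Fin M → Td d} (hr₀ : 0 < r₀) (hS : SepR α r₀ n M β) (hN : 1 ≤ N) (hP : 1 ≤ P)
    (hint : 2 * ((M * n : ℕ) : ℝ) ≤ (2 * N * r₀) ^ (2 * P)) (hs : 0 ≤ s)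
    (hs1 : s ≤ |U 0| * Real.exp (-((P * N : ℝ) ^ γ)) / 20) {m : ℕ} (hm : m + 5 ≤ n) {Φ : (ℕ → ℝ) → ℝ≥0∞}
    (hΦ : Measurable Φ) (hc : ∀ b b' : ℕ → ℝ, (∀ j < n, b j = b' j) → Φ b = Φ b') {K : ℝ≥0∞}
    (hK : ∀ b, ∫⁻ t, Φ (up5 b m s t) ∂un5 ≤ K) :
    ∫⁻ w, ∏ l, Φ (sq α (frc γ e U w) (β l)) ∂lawL d ≤ (ENNReal.ofReal (Real.exp 1) * K) ^ M := by
  have hsh : ∀ l : Fin M, ∃ S : Ow d → (Fin 5 → ℝ) → Ow d, (Measurable fun q : Ow d × (Fin 5 → ℝ) => S q.1 q.2) ∧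
      (∀ G : Ow d → ℝ≥0∞, Measurable G →
        ∫⁻ w, G w ∂lawL d ≤ ENNReal.ofReal (Real.exp 1) * ∫⁻ w, ∫⁻ t, G (S w t) ∂un5 ∂lawL d) ∧
      ∀ w, Hw γ w ≠ ∞ → ∀ t,
        (∀ j < n, sq α (frc γ e U (S w t)) (β l) j = up5 (sq α (frc γ e U w) (β l)) m s t j) ∧
        ∀ l', l' ≠ l → ∀ j < n, sq α (frc γ e U (S w t)) (β l') j = sq α (frc γ e U w) (β l') j :=
    fun l => Pool.Agent.Helper19.AF.shift5 (e := e) hγ hU hr₀ hS hN hP hint hs hs1 l m hm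
  choose S hSm hS1 hS2 using hsh
  obtain ⟨φ, hφ0, hφ1⟩ : ∃ φ : Fin M → ℕ → Ow d → ℝ≥0∞, (∀ l w, φ l 0 w = K) ∧
      ∀ l j w, φ l (j + 1) w = Φ (sq α (frc γ e U w) (β l)) :=
    ⟨fun l j w => match j with
      | 0 => K
      | _ + 1 => Φ (sq α (frc γ e U w) (β l)), fun _ _ => rfl, fun _ _ _ => rfl⟩
  have hφm : ∀ l j, Measurable (φ l j) := by
    intro l j
    rcases j with _ | j
    · rw [show φ l 0 = fun _ => K from funext fun w => hφ0 l w]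
      exact measurable_const
    · rw [show φ l (j + 1) = fun w => Φ (sq α (frc γ e U w) (β l)) from funext fun w => hφ1 l j w]
      exact hΦ.comp (seq_meas γ e U α (β l))
  have hmain := Pool.Agent.Helper95.AF.peel2 (μ := lawL d) (τ := un5) (J := 1) hφm (S := fun l _ => S l)
    (fun l _ => hSm l) (C := ENNReal.ofReal (Real.exp 1)) (Z := {w | Hw γ w ≠ ∞}) (Pool.Agent.Helper82.AN.Hw_ae hγ)
    (fun l j _ => hS1 l) ?_ ?_
  · calc ∫⁻ w, ∏ l, Φ (sq α (frc γ e U w) (β l)) ∂lawL d = ∫⁻ w, ∏ l, φ l 1 w ∂lawL d :=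
          lintegral_congr fun w => Finset.prod_congr rfl fun l _ => (hφ1 l 0 w).symm
      _ ≤ ENNReal.ofReal (Real.exp 1) ^ (M * 1) * ∫⁻ w, ∏ l, φ l 0 w ∂lawL d := hmain
      _ = (ENNReal.ofReal (Real.exp 1) * K) ^ M := by
          simp only [hφ0, Finset.prod_const, Finset.card_univ, Fintype.card_fin, lintegral_const, measure_univ, mul_one]
          rw [mul_pow]
  · intro l l' hl j _ i hi w hw t
    rcases i with _ | i
    · rw [hφ0, hφ0]
    · rw [hφ1, hφ1]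
      exact hc _ _ fun j' hj' => (hS2 l w hw t).2 l' hl j' hj'
  · intro l j hj w hw
    have hj0 : j = 0 := by omega
    subst hj0
    rw [hφ0]
    refine le_trans (le_of_eq (lintegral_congr fun t => ?_)) (hK (sq α (frc γ e U w) (β l)))
    rw [hφ1]
    exact hc _ _ fun j' hj' => (hS2 l w hw t).1 j' hj'

end Pool.Agent.Helper30.AU
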