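import Pool.Agent.Helper95.AU.Defs
import Pool.Agent.Helper30.AU.Prod
import Pool.Agent.Helper4.AF.Meas
import Pool.Agent.Helper83.AF.FX
import Pool.Agent.Helper82.AN.PtsP

/-! # Project AU (`MP_9ee088_an`), block U2: exponential moment of the mean loss -/

set_option autoImplicit false
open MeasureTheory Real Set Filter Topology
open scoped ENNReal

namespace Pool.Agent.Helper30.AU

open Pool.Agent.Helper18.UC (nn LL sqo rep toT)
open Pool.Agent.Helper46.QP (TT Td)
open Pool.Agent.Helper82.AN (Ow lawL eta Hw sq SepR)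
open Pool.Agent.Helper95.AF (po pM shb up5 un un5 frc)
open Pool.Agent.Helper95.AU (lo ml)
open Pool.Agent.Helper30.AF (seq_meas po_congr pM_congr po_meas pM_meas)

/-! ### the loss -/

theorem log_nn_bd (a : ℝ) (b : ℕ → ℝ) {n m : ℕ} (h : n ≤ 2 * m) (q : ℝ × ℝ) :
    0 ≤ Real.log (nn (pM a b n q)) ∧ Real.log (nn (pM a b n q)) ≤ Real.log (2 * LL a ^ (2 * m)) := by
  have h1 := Pool.Agent.Helper6.AF.one_le_nn a b n q
  have h2 := Pool.Agent.Helper83.AF.nn_pM_le a b n q
  have hL : 1 ≤ LL a := by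
    unfold LL
    have : 0 ≤ 2 * π * |a| := by positivity
    linarith
  refine ⟨Real.log_nonneg h1, Real.log_le_log (by linarith) (h2.trans ?_)⟩
  have h3 : LL a ^ n ≤ LL a ^ (2 * m) := pow_le_pow_right₀ hL h
  linarith

theorem lo_bd (a : ℝ) (b : ℕ → ℝ) (m : ℕ) (q : ℝ × ℝ) : |lo a b m q| ≤ 2 * Real.log (2 * LL a ^ (2 * m)) := by
  obtain ⟨h1, h2⟩ := log_nn_bd a b (n := m) (m := m) (by omega) q
  obtain ⟨h3, h4⟩ := log_nn_bd a (shb b m) (n := m) (m := m) (by omega) (po a b m q)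
  obtain ⟨h5, h6⟩ := log_nn_bd a b (n := 2 * m) (m := m) le_rfl q
  unfold lo
  rw [abs_le]
  constructor <;> linarith

theorem lo_congr {a : ℝ} {b b' : ℕ → ℝ} {m : ℕ} (h : ∀ j < 2 * m, b j = b' j) (q : ℝ × ℝ) : lo a b m q = lo a b' m q := by
  unfold lo
  rw [pM_congr (n := m) (fun j hj => h j (by omega)), po_congr (n := m) (fun j hj => h j (by omega)),
    pM_congr (b := shb b m) (b' := shb b' m) (n := m) (fun j hj => h (j + m) (by omega)), pM_congr (n := 2 * m) h]

theorem lo_meas (a : ℝ) (m : ℕ) : Measurable fun p : (ℕ → ℝ) × (ℝ × ℝ) => lo a p.1 m p.2 := by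
  have h1 : Measurable fun p : (ℕ → ℝ) × (ℝ × ℝ) => ((shb p.1 m, po a p.1 m p.2) : (ℕ → ℝ) × (ℝ × ℝ)) := by
    refine Measurable.prodMk (measurable_pi_iff.2 fun j => ?_) (po_meas a m)
    exact (measurable_pi_apply (j + m)).comp measurable_fst
  have h2 := (Pool.Agent.Helper4.AF.log_meas a m).comp h1
  unfold lo
  exact ((Pool.Agent.Helper4.AF.log_meas a m).add h2).sub (Pool.Agent.Helper4.AF.log_meas a (2 * m))

theorem lor_meas (a : ℝ) (m : ℕ) : Measurable fun p : (ℕ → ℝ) × TT => lo a p.1 m (rep p.2) := by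
  have h1 : Measurable fun p : (ℕ → ℝ) × TT => ((p.1, rep p.2) : (ℕ → ℝ) × (ℝ × ℝ)) :=
    measurable_fst.prodMk (Pool.Agent.Helper18.UC.measurable_rep.comp measurable_snd)
  exact (lo_meas a m).comp h1

/-- exponential moment over the fibre -/
noncomputable def Ph (a : ℝ) (m : ℕ) (b : ℕ → ℝ) : ℝ≥0∞ := ∫⁻ z : TT, ENNReal.ofReal (Real.exp (lo a b m (rep z) / 4))

theorem Ph_meas (a : ℝ) (m : ℕ) : Measurable (Ph a m) := by
  have h : Measurable fun p : (ℕ → ℝ) × TT => ENNReal.ofReal (Real.exp (lo a p.1 m (rep p.2) / 4)) :=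
    ENNReal.measurable_ofReal.comp (Real.measurable_exp.comp ((lor_meas a m).div_const 4))
  exact h.lintegral_prod_right'

theorem Ph_congr {a : ℝ} {m : ℕ} {b b' : ℕ → ℝ} (h : ∀ j < 2 * m, b j = b' j) : Ph a m b = Ph a m b' := by
  unfold Ph
  exact lintegral_congr fun z => by rw [lo_congr h]

theorem up5_meas (b : ℕ → ℝ) (m : ℕ) (s : ℝ) : Measurable fun t : Fin 5 → ℝ => up5 b m s t := by
  refine measurable_pi_iff.2 fun j => ?_
  unfold up5
  by_cases h : m ≤ j ∧ j < m + 5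
  · simp only [h, and_self, dite_true]
    have h5 : Measurable fun t : Fin 5 → ℝ => t ⟨j - m, by omega⟩ := measurable_pi_apply _
    exact (h5.const_mul s).const_add _
  · simp only [h, dite_false]
    exact measurable_const

/-- average over the noise -/
theorem Ph_step (a s : ℝ) (m n : ℕ) (b : ℕ → ℝ) {K : ℝ≥0∞}
    (h : ∀ q, ∫⁻ t, ENNReal.ofReal (Real.exp (lo a (up5 b m s t) n q / 4)) ∂un5 ≤ K) :
    ∫⁻ t, Ph a n (up5 b m s t) ∂un5 ≤ K := by
  unfold Ph
  rw [lintegral_lintegral_swap]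
  · calc ∫⁻ z : TT, ∫⁻ t, ENNReal.ofReal (Real.exp (lo a (up5 b m s t) n (rep z) / 4)) ∂un5 ≤ ∫⁻ _z : TT, K :=
          lintegral_mono fun z => h (rep z)
      _ = K := by rw [lintegral_const, measure_univ, mul_one]
  · have h0 : Measurable fun p : (Fin 5 → ℝ) × TT => ((up5 b m s p.1, p.2) : (ℕ → ℝ) × TT) :=
      ((up5_meas b m s).comp measurable_fst).prodMk measurable_snd
    have h1' := (lor_meas a n).comp h0
    have h1 : Measurable fun p : (Fin 5 → ℝ) × TT => lo a (up5 b m s p.1) n (rep p.2) := h1'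
    have h2 : Measurable fun p : (Fin 5 → ℝ) × TT => lo a (up5 b m s p.1) n (rep p.2) / 4 := h1.div_const 4
    have h3 : Measurable fun p : (Fin 5 → ℝ) × TT => Real.exp (lo a (up5 b m s p.1) n (rep p.2) / 4) :=
      Real.measurable_exp.comp h2
    have h4 : Measurable fun p : (Fin 5 → ℝ) × TT => ENNReal.ofReal (Real.exp (lo a (up5 b m s p.1) n (rep p.2) / 4)) :=
      ENNReal.measurable_ofReal.comp h3
    exact h4.aemeasurable

/-- Jensen -/
theorem jen {Y : Type*} [MeasurableSpace Y] {ν : Measure Y} [IsProbabilityMeasure ν] {g : Y → ℝ}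
    (hg : Measurable g) {B : ℝ} (hB : ∀ y, |g y| ≤ B) :
    ENNReal.ofReal (Real.exp (∫ y, g y ∂ν)) ≤ ∫⁻ y, ENNReal.ofReal (Real.exp (g y)) ∂ν := by
  have hgi : Integrable g ν :=
    Integrable.of_bound hg.aestronglyMeasurable B (Filter.Eventually.of_forall fun y => by
      rw [Real.norm_eq_abs]; exact hB y)
  have hei : Integrable (Real.exp ∘ g) ν := by
    refine Integrable.of_bound (Real.measurable_exp.comp hg).aestronglyMeasurable (Real.exp B)
      (Filter.Eventually.of_forall fun y => ?_)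
    rw [Real.norm_eq_abs, Function.comp_apply, abs_of_pos (Real.exp_pos _)]
    exact Real.exp_le_exp.2 ((le_abs_self _).trans (hB y))
  have e3 : Real.exp (∫ y, g y ∂ν) ≤ ∫ y, Real.exp (g y) ∂ν :=
    convexOn_exp.map_integral_le Real.continuous_exp.continuousOn isClosed_univ
      (Filter.Eventually.of_forall fun y => mem_univ _) hgi hei
  refine (ENNReal.ofReal_le_ofReal e3).trans (le_of_eq ?_)
  exact ofReal_integral_eq_lintegral_ofReal hei (Filter.Eventually.of_forall fun y => (Real.exp_pos _).le)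

/-- the mean value over the base and the fibre -/
theorem mean {d : ℕ} {α : Td d} {f : Td d → ℝ} (hf : Measurable f) (a : ℝ) (m M : ℕ) (β : Fin M → Td d) :
    ENNReal.ofReal (Real.exp (M / 4 * ml α a f m)) ≤ ∫⁻ θ : Td d, ∏ k, Ph a m (sq α f (θ + β k)) := by
  obtain ⟨B, hBdef⟩ : ∃ B : ℝ, B = 2 * Real.log (2 * LL a ^ (2 * m)) := ⟨_, rfl⟩
  have hLa : ∀ (b : ℕ → ℝ) (z : TT), |lo a b m (rep z)| ≤ B := fun b z => by
    rw [hBdef]
    exact lo_bd a b m (rep z)
  have hsq : Measurable fun θ : Td d => sq α f θ := by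
    refine measurable_pi_lambda _ fun j => ?_
    unfold Pool.Agent.Helper82.AN.sq
    exact hf.comp (measurable_id.add_const _)
  have hLm : Measurable fun x : Td d × TT => lo a (sq α f x.1) m (rep x.2) := by
    have h1 : Measurable fun x : Td d × TT => ((sq α f x.1, x.2) : (ℕ → ℝ) × TT) :=
      (hsq.comp measurable_fst).prodMk measurable_snd
    exact (lor_meas a m).comp h1
  have hLi : Integrable (fun x : Td d × TT => lo a (sq α f x.1) m (rep x.2)) (volume.prod volume) :=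
    Integrable.of_bound hLm.aestronglyMeasurable B (Filter.Eventually.of_forall fun x => by
      rw [Real.norm_eq_abs]; exact hLa _ _)
  obtain ⟨φ, hφ⟩ : ∃ φ : Td d → ℝ, φ = fun θ => ∫ z : TT, lo a (sq α f θ) m (rep z) := ⟨_, rfl⟩
  have hφm : Measurable φ := by
    rw [hφ]
    exact (hLm.stronglyMeasurable.integral_prod_right (ν := (volume : Measure TT))).measurable
  have hφB : ∀ θ, |φ θ| ≤ B := by
    intro θ
    rw [hφ]
    simp only
    have h1 := norm_integral_le_of_norm_le_const (μ := (volume : Measure TT))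
      (f := fun z => lo a (sq α f θ) m (rep z)) (C := B) (Filter.Eventually.of_forall fun z => by
        rw [Real.norm_eq_abs]; exact hLa _ _)
    rw [Real.norm_eq_abs, probReal_univ, mul_one] at h1
    exact h1
  have e0 : ml α a f m = ∫ θ, φ θ := by
    rw [hφ]
    exact integral_prod _ hLi
  have hti : ∀ b : Td d, Integrable (fun θ => φ (θ + b)) volume := fun b =>
    Integrable.of_bound (hφm.comp (measurable_id.add_const b)).aestronglyMeasurable B
      (Filter.Eventually.of_forall fun θ => by rw [Real.norm_eq_abs]; exact hφB _)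
  have e1 : (M : ℝ) / 4 * ml α a f m = ∫ θ, ∑ k : Fin M, φ (θ + β k) / 4 := by
    rw [e0, integral_finsetSum _ fun k _ => (hti (β k)).div_const 4]
    have e2 : ∀ k : Fin M, ∫ θ, φ (θ + β k) / 4 = (∫ θ, φ θ) / 4 := fun k => by
      rw [integral_div, integral_add_right_eq_self φ (β k)]
    simp only [e2, Finset.sum_const, Finset.card_univ, Fintype.card_fin, nsmul_eq_mul]
    ring
  have hgm : Measurable fun θ => ∑ k : Fin M, φ (θ + β k) / 4 :=
    Finset.measurable_sum _ fun k _ => (hφm.comp (measurable_id.add_const (β k))).div_const 4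
  have hgb : ∀ θ, |∑ k : Fin M, φ (θ + β k) / 4| ≤ M * (B / 4) := by
    intro θ
    refine (Finset.abs_sum_le_sum_abs _ _).trans ?_
    calc ∑ k : Fin M, |φ (θ + β k) / 4| ≤ ∑ _k : Fin M, B / 4 := by
          refine Finset.sum_le_sum fun k _ => ?_
          rw [abs_div, abs_of_pos (by norm_num : (0 : ℝ) < 4)]
          exact div_le_div_of_nonneg_right (hφB _) (by norm_num)
      _ = M * (B / 4) := by simp
  rw [e1]
  refine (jen hgm hgb).trans (lintegral_mono fun θ => ?_)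
  simp only
  rw [Real.exp_sum, ENNReal.ofReal_prod_of_nonneg fun k _ => (Real.exp_pos _).le]
  refine Finset.prod_le_prod' fun k _ => ?_
  have h2 : φ (θ + β k) / 4 = ∫ z : TT, lo a (sq α f (θ + β k)) m (rep z) / 4 := by
    rw [hφ]
    simp only
    rw [integral_div]
  rw [h2]
  have h3 : Measurable fun z : TT => lo a (sq α f (θ + β k)) m (rep z) / 4 := by
    have h0 : Measurable fun z : TT => ((sq α f (θ + β k), z) : (ℕ → ℝ) × TT) := measurable_const.prodMk measurable_id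
    exact ((lor_meas a m).comp h0).div_const 4
  refine jen h3 (B := B / 4) fun z => ?_
  rw [abs_div, abs_of_pos (by norm_num : (0 : ℝ) < 4)]
  exact div_le_div_of_nonneg_right (hLa _ _) (by norm_num)

/-- joint measurability of the sequences -/
theorem seq_meas2 {d : ℕ} (γ : ℝ) {k : ℕ} {e : Fin k → Td d → ℝ} (he : ∀ i, Continuous (e i)) (U : Fin (k + 1) → ℝ)
    (α β : Td d) : Measurable fun p : Ow d × Td d => sq α (frc γ e U p.1) (p.2 + β) := by
  refine measurable_pi_iff.2 fun j => ?_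
  show Measurable fun p : Ow d × Td d => (∑ i : Fin k, U i.succ * e i (p.2 + β + j • α)) + U 0 * eta γ p.1 (p.2 + β + j • α)
  have h1 : Measurable fun p : Ow d × Td d => p.2 + β + j • α := (measurable_snd.add_const β).add_const _
  have h2 : Measurable fun p : Ow d × Td d => ((p.1, p.2 + β + j • α) : Ow d × Td d) := measurable_fst.prodMk h1
  refine Measurable.add (Finset.measurable_sum _ fun i _ => ((he i).measurable.comp h1).const_mul _) ?_
  exact ((Pool.Agent.Helper82.AN.eta_meas γ).comp h2).const_mul _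

/-- **U2**: exponential moment of the mean loss, from `junc` -/
theorem conc_lo_of (junc : ∃ C : ℝ, 1 ≤ C ∧ ∀ (a ρ : ℝ) (m : ℕ) (b : ℕ → ℝ) (q : ℝ × ℝ), 1 ≤ |a| → 0 < ρ → ρ ≤ 1 →
    ∫⁻ t, ENNReal.ofReal (Real.exp (lo a (up5 b m (ρ / (10 * (|a| + 1)) ^ 5) t) (m + 5) q / 4)) ∂un5 ≤
      ENNReal.ofReal ((C * (|a| + 1) / ρ) ^ 40)) :
    ∃ C : ℝ, 1 ≤ C ∧ ∀ (d : ℕ) (γ : ℝ) (k : ℕ) (e : Fin k → Td d → ℝ) (U : Fin (k + 1) → ℝ) (α : Td d)
    (r₀ a ρ : ℝ) (m M N P : ℕ) (β : Fin M → Td d), 0 < γ → (∀ i, Continuous (e i)) → U 0 ≠ 0 → 0 < r₀ →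
    SepR α r₀ (2 * (m + 5)) M β → 1 ≤ M → 1 ≤ N → 1 ≤ P →
    2 * ((M * (2 * (m + 5)) : ℕ) : ℝ) ≤ (2 * N * r₀) ^ (2 * P) → 1 ≤ |a| → 0 < ρ → ρ ≤ 1 →
    ρ / (10 * (|a| + 1)) ^ 5 ≤ |U 0| * Real.exp (-((P * N : ℝ) ^ γ)) / 20 →
    ∫⁻ w, ENNReal.ofReal (Real.exp (M / 4 * ml α a (frc γ e U w) (m + 5))) ∂lawL d ≤
      ENNReal.ofReal ((C * (|a| + 1) / ρ) ^ (40 * M)) := by
  obtain ⟨C, hC, hj⟩ := junc
  refine ⟨Real.exp 1 * C, ?_, ?_⟩
  · have : 1 ≤ Real.exp 1 := Real.one_le_exp (by norm_num)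
    nlinarith
  intro d γ k e U α r₀ a ρ m M N P β hγ he hU hr₀ hS hM hN hP hint ha hρ hρ1 hsU
  obtain ⟨s, hs⟩ : ∃ s, s = ρ / (10 * (|a| + 1)) ^ 5 := ⟨_, rfl⟩
  have ha0 : 0 ≤ |a| := abs_nonneg a
  have hs0 : 0 ≤ s := by rw [hs]; positivity
  obtain ⟨K, hK⟩ : ∃ K : ℝ≥0∞, K = ENNReal.ofReal ((C * (|a| + 1) / ρ) ^ 40) := ⟨_, rfl⟩
  have hPh : ∀ b, ∫⁻ t, Ph a (m + 5) (up5 b m s t) ∂un5 ≤ K := fun b => Ph_step a s m (m + 5) b fun q => by
    rw [hs, hK]
    exact hj a ρ m b q ha hρ hρ1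
  have hfix : ∀ θ : Td d, ∫⁻ w, ∏ l, Ph a (m + 5) (sq α (frc γ e U w) (θ + β l)) ∂lawL d ≤
      (ENNReal.ofReal (Real.exp 1) * K) ^ M := fun θ =>
    prod_windows (β := fun l => θ + β l) hγ hU hr₀ (Pool.Agent.Helper82.AN.SepR_add hS θ) hN hP hint hs0
      (hs ▸ hsU) (m := m) (by omega) (Ph_meas a (m + 5)) (fun b b' h => Ph_congr h) hPh
  calc ∫⁻ w, ENNReal.ofReal (Real.exp (M / 4 * ml α a (frc γ e U w) (m + 5))) ∂lawL d
      ≤ ∫⁻ w, (∫⁻ θ : Td d, ∏ l, Ph a (m + 5) (sq α (frc γ e U w) (θ + β l))) ∂lawL d := by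
        refine lintegral_mono_ae ?_
        filter_upwards [Pool.Agent.Helper82.AN.Hw_ae hγ] with w hw
        refine mean ?_ a (m + 5) M β
        unfold Pool.Agent.Helper95.AF.frc
        exact ((continuous_finsetSum _ fun i _ => (he i).const_mul _).add
          ((Pool.Agent.Helper82.AN.eta_cont hw).const_mul _)).measurable
    _ = ∫⁻ θ : Td d, (∫⁻ w, ∏ l, Ph a (m + 5) (sq α (frc γ e U w) (θ + β l)) ∂lawL d) := by
        have h0 : ∀ l : Fin M, Measurable fun p : Ow d × Td d => Ph a (m + 5) (sq α (frc γ e U p.1) (p.2 + β l)) :=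
          fun l => (Ph_meas a (m + 5)).comp (seq_meas2 γ he U α (β l))
        have h1 : Measurable fun p : Ow d × Td d => ∏ l, Ph a (m + 5) (sq α (frc γ e U p.1) (p.2 + β l)) :=
          Finset.measurable_prod _ fun l _ => h0 l
        rw [lintegral_lintegral_swap]
        exact h1.aemeasurable
    _ ≤ ∫⁻ _θ : Td d, (ENNReal.ofReal (Real.exp 1) * K) ^ M := lintegral_mono hfix
    _ = (ENNReal.ofReal (Real.exp 1) * K) ^ M := by rw [lintegral_const, measure_univ, mul_one]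
    _ ≤ ENNReal.ofReal ((Real.exp 1 * C * (|a| + 1) / ρ) ^ (40 * M)) := by
        rw [hK, ← ENNReal.ofReal_mul (Real.exp_pos _).le, pow_mul, ENNReal.ofReal_pow (by positivity)]
        gcongr
        have h1 : Real.exp 1 * C * (|a| + 1) / ρ = Real.exp 1 * (C * (|a| + 1) / ρ) := by ring
        rw [h1, mul_pow]
        have h2 : Real.exp 1 ≤ Real.exp 1 ^ 40 := le_self_pow₀ (Real.one_le_exp (by norm_num)) (by norm_num)
        exact mul_le_mul_of_nonneg_right h2 (by positivity)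

end Pool.Agent.Helper30.AU
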