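import Pool.Agent.Helper30.AU.Conc
import Pool.Agent.Helper8.AU.U1

/-! # Project AU (`MP_9ee088_an`), block U2: exponential moment of the mean loss, without hypothesis -/

set_option autoImplicit false
open MeasureTheory Real Set Filter Topology
open scoped ENNReal

namespace Pool.Agent.Helper30.AU

open Pool.Agent.Helper46.QP (TT Td)
open Pool.Agent.Helper82.AN (Ow lawL eta Hw sq SepR)
open Pool.Agent.Helper95.AF (frc)
open Pool.Agent.Helper95.AU (lo ml)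

/-- **U2**: exponential moment of the mean loss -/
theorem conc_lo : ∃ C : ℝ, 1 ≤ C ∧ ∀ (d : ℕ) (γ : ℝ) (k : ℕ) (e : Fin k → Td d → ℝ) (U : Fin (k + 1) → ℝ) (α : Td d)
    (r₀ a ρ : ℝ) (m M N P : ℕ) (β : Fin M → Td d), 0 < γ → (∀ i, Continuous (e i)) → U 0 ≠ 0 → 0 < r₀ →
    SepR α r₀ (2 * (m + 5)) M β → 1 ≤ M → 1 ≤ N → 1 ≤ P →
    2 * ((M * (2 * (m + 5)) : ℕ) : ℝ) ≤ (2 * N * r₀) ^ (2 * P) → 1 ≤ |a| → 0 < ρ → ρ ≤ 1 →
    ρ / (10 * (|a| + 1)) ^ 5 ≤ |U 0| * Real.exp (-((P * N : ℝ) ^ γ)) / 20 →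
    ∫⁻ w, ENNReal.ofReal (Real.exp (M / 4 * ml α a (frc γ e U w) (m + 5))) ∂lawL d ≤
      ENNReal.ofReal ((C * (|a| + 1) / ρ) ^ (40 * M)) := conc_lo_of Pool.Agent.Helper8.AU.junc

end Pool.Agent.Helper30.AU
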